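import Pool.Agent.H23.DM.TargetsG
import Pool.Agent.H27.TM.TargetsG

/-!
# The twelfth moment in the whole conductor: row CL (cells)
-/

set_option autoImplicit false

open NumberField NumberField.InfinitePlace MeasureTheory Set Filter Complex
open scoped nonZeroDivisors ENNReal

namespace Pool.Agent.H33.DM.CL

open Pool.Agent.H23.LB (Nf)
open Pool.Agent.H23.DM
open Pool.Agent.H29.DW (Rl rv)
open Pool.Agent.H31.SW (PP)

theorem pf_CL (hCL : Pool.Agent.H27.TM.M_CL) : D_CL := by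
  intro n hn
  obtain ⟨C, hC, h⟩ := hCL n hn
  refine ⟨C, hC, ?_⟩
  intro K _ _ hK ι J γ b c τ H hb hH hc
  classical
  obtain ⟨bl, h1, h2⟩ := h K hK ι J c τ H hH hc
  have : Finite (𝓞 K ⧸ b) := Ideal.finiteQuotientOfFreeOfNeBot b hb
  let e : (𝓞 K ⧸ b) ≃ Fin (Nat.card (𝓞 K ⧸ b)) := Finite.equivFin _
  have hN : (Nat.card (𝓞 K ⧸ b) : ℝ) = Nf K b := by
    unfold Nf
    rw [Ideal.absNorm_apply, Submodule.cardQuot_apply]
  refine ⟨fun j => Nat.pair (bl j) (e (Ideal.Quotient.mk b (γ j))), ?_, ?_⟩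
  · have h3 : (J.image fun j => Nat.pair (bl j) (e (Ideal.Quotient.mk b (γ j)))) ⊆
        ((J.image bl) ×ˢ (Finset.range (Nat.card (𝓞 K ⧸ b)))).image fun p =>
          Nat.pair p.1 p.2 := by
      intro x hx
      obtain ⟨j, hj, rfl⟩ := Finset.mem_image.1 hx
      exact Finset.mem_image.2 ⟨(bl j, (e (Ideal.Quotient.mk b (γ j)) : ℕ)),
        Finset.mem_product.2 ⟨Finset.mem_image_of_mem _ hj,
          Finset.mem_range.2 (e (Ideal.Quotient.mk b (γ j))).2⟩, rfl⟩
    have h4 := (Finset.card_le_card h3).trans Finset.card_image_le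
    rw [Finset.card_product, Finset.card_range] at h4
    have h5 : ((J.image fun j => Nat.pair (bl j) (e (Ideal.Quotient.mk b (γ j)))).card : ℝ) ≤
        ((J.image bl).card : ℝ) * Nf K b := by
      rw [← hN]
      exact_mod_cast h4
    have hN0 : 0 ≤ Nf K b := by rw [← hN]; exact Nat.cast_nonneg _
    refine h5.trans ((mul_le_mul_of_nonneg_right h1 hN0).trans (le_of_eq ?_))
    ring
  · intro i hi j hj hij
    obtain ⟨h3, h4⟩ := Nat.pair_eq_pair.1 hij
    refine ⟨?_, h2 i hi j hj h3⟩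
    exact Ideal.Quotient.eq.1 (e.injective (Fin.ext h4))

end Pool.Agent.H33.DM.CL
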